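import Mathlib

set_option autoImplicit false

namespace Pool.Agent.P.MP_636dfe_co.Cap

open Finset

/- labelled families of finite sets in a vector space over the field with three elements -/

def Good {G : Type} [AddCommGroup G] (T : ℕ → ℕ → ℕ → Bool) (C : ℕ → Finset G) : Prop :=
  ∀ a b c : ℕ, ∀ x ∈ C a, ∀ y ∈ C b, ∀ z ∈ C c, x + y + z = 0 →
    T a b c = true ∧ (a = b → b = c → x = y)

def Str (d : ℕ) (T : ℕ → ℕ → ℕ → Bool) (w : ℕ → ℕ) : Prop :=
  ∃ (G : Type) (_ : AddCommGroup G) (_ : Module (ZMod 3) G) (_ : Module.Finite (ZMod 3) G),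
    Module.finrank (ZMod 3) G = d ∧ ∃ C : ℕ → Finset G, (∀ a, w a ≤ (C a).card) ∧ Good T C

theorem three_zero {G : Type} [AddCommGroup G] [Module (ZMod 3) G] (x : G) : x + x + x = 0 := by
  have h : x + x + x = ((1 : ZMod 3) + 1 + 1) • x := by simp [add_smul]
  have h3 : ((1 : ZMod 3) + 1 + 1) = 0 := by decide
  rw [h, h3, zero_smul]

theorem Str.mono {d : ℕ} {T : ℕ → ℕ → ℕ → Bool} {w w' : ℕ → ℕ} (h : Str d T w)
    (hw : ∀ a, w' a ≤ w a) : Str d T w' := by
  obtain ⟨G, i1, i2, i3, hd, C, hC, hG⟩ := h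
  exact ⟨G, i1, i2, i3, hd, C, fun a => (hw a).trans (hC a), hG⟩

theorem glue {G : Type} [AddCommGroup G] [Module (ZMod 3) G] (N : ℕ) (P : ℕ → Finset G)
    (L : ℕ → ℕ) (T : ℕ → ℕ → ℕ → Bool)
    (H : ∀ i < N, ∀ j < N, ∀ l < N, ∀ x ∈ P i, ∀ y ∈ P j, ∀ z ∈ P l, x + y + z = 0 →
      T (L i) (L j) (L l) = true ∧ (L i = L j → L j = L l → i = j ∧ x = y)) :
    ∃ C : ℕ → Finset G,
      (∀ a, (∑ i ∈ range N, if L i = a then (P i).card else 0) ≤ (C a).card) ∧ Good T C := by
  classical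
  refine ⟨fun a => ((range N).filter (fun i => L i = a)).biUnion P, fun a => ?_, ?_⟩
  · rw [card_biUnion, sum_filter]
    intro i hi j hj hij
    simp only [coe_filter, mem_range, Set.mem_ofPred_eq] at hi hj
    rw [Function.onFun, Finset.disjoint_left]
    intro x hx hy
    exact hij ((H i hi.1 j hj.1 j hj.1 x hx x hy x hy (three_zero x)).2 (hi.2.trans hj.2.symm) rfl).1
  · intro a b c x hx y hy z hz hs
    simp only [mem_biUnion, mem_filter, mem_range] at hx hy hz
    obtain ⟨i, ⟨hi, rfl⟩, hx⟩ := hx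
    obtain ⟨j, ⟨hj, rfl⟩, hy⟩ := hy
    obtain ⟨l, ⟨hl, rfl⟩, hz⟩ := hz
    have := H i hi j hj l hl x hx y hy z hz hs
    exact ⟨this.1, fun h1 h2 => (this.2 h1 h2).2⟩

/- words over the labels of a family give a new family -/
theorem comp {d : ℕ} {T : ℕ → ℕ → ℕ → Bool} {w : ℕ → ℕ} (h : Str d T w) (k N : ℕ)
    (W : ℕ → ℕ → ℕ) (L : ℕ → ℕ) (T' : ℕ → ℕ → ℕ → Bool)
    (H : ∀ i < N, ∀ j < N, ∀ l < N, (∀ p < k, T (W i p) (W j p) (W l p) = true) →
      T' (L i) (L j) (L l) = true ∧ (L i = L j → L j = L l → i = j ∧ j = l)) :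
    Str (k * d) T' (fun a => ∑ i ∈ range N, if L i = a then ∏ p ∈ range k, w (W i p) else 0) := by
  classical
  obtain ⟨G, i1, i2, i3, hd, C, hC, hG⟩ := h
  obtain ⟨C', h1, h2⟩ := glue (G := Fin k → G) N
    (fun i => Fintype.piFinset fun p : Fin k => C (W i p)) L T' (by
      intro i hi j hj l hl x hx y hy z hz hs
      rw [Fintype.mem_piFinset] at hx hy hz
      have hp : ∀ p : Fin k, T (W i p) (W j p) (W l p) = true ∧
          (W i p = W j p → W j p = W l p → x p = y p) := fun p =>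
        hG _ _ _ _ (hx p) _ (hy p) _ (hz p) (congrFun hs p)
      have := H i hi j hj l hl (fun p hp' => (hp ⟨p, hp'⟩).1)
      refine ⟨this.1, fun e1 e2 => ?_⟩
      obtain ⟨rfl, rfl⟩ := this.2 e1 e2
      exact ⟨rfl, funext fun p => (hp p).2 rfl rfl⟩)
  refine ⟨Fin k → G, inferInstance, inferInstance, inferInstance, ?_, C', fun a => ?_, h2⟩
  · rw [Module.finrank_pi_fintype]
    simp [hd]
  · refine le_trans (sum_le_sum fun i _ => ?_) (h1 a)
    split_ifs
    · rw [Fintype.card_piFinset, ← Fin.prod_univ_eq_prod_range (fun p => w (W i p)) k]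
      exact prod_le_prod' fun p _ => hC _
    · exact le_rfl

/- the field itself, each point its own label -/
def T0 (a b c : ℕ) : Bool := Nat.beq (Nat.mod (Nat.add (Nat.add a b) c) 3) 0

theorem str_base : Str 1 T0 (fun a => [1, 1, 1].getD a 0) := by
  refine ⟨ZMod 3, inferInstance, inferInstance, inferInstance, Module.finrank_self _,
    fun a => if a < 3 then {(a : ZMod 3)} else ∅, fun a => ?_, ?_⟩
  · rcases a with _ | _ | _ | a <;> simp
  · intro a b c x hx y hy z hz hs
    beta_reduce at hx hy hz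
    split_ifs at hx hy hz <;> simp only [mem_singleton, notMem_empty] at hx hy hz
    subst hx hy hz
    refine ⟨?_, fun h _ => by rw [h]⟩
    have : ((a + b + c : ℕ) : ZMod 3) = 0 := by push_cast; exact hs
    rw [ZMod.natCast_eq_zero_iff] at this
    exact Nat.beq_eq.mpr (Nat.mod_eq_zero_of_dvd this)

/- automata: labels below 16 are pairs (start state, end state) -/
def TA (D : ℕ → ℕ → ℕ → Bool) (a b c : ℕ) : Bool :=
  (Nat.beq a b && Nat.beq b c) ||
    !(((Nat.beq (a / 4) (b / 4) && Nat.beq (b / 4) (c / 4)) || D (a / 4) (b / 4) (c / 4)) &&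
      !(D (a % 4) (b % 4) (c % 4)))

theorem aut_step {d d' : ℕ} {D : ℕ → ℕ → ℕ → Bool} (hD : ∀ a, D a a a = false) {w u : ℕ → ℕ}
    (h : Str d (TA D) w) (h' : Str d' (fun a b c => !(D a b c)) u) :
    Str (d + d') (fun a b c => !(D a b c))
      (fun s => ∑ l ∈ range 16, if l / 4 = s then w l * u (l % 4) else 0) := by
  classical
  obtain ⟨G, i1, i2, i3, hd, C, hC, hG⟩ := h
  obtain ⟨G', j1, j2, j3, hd', U, hU, hG'⟩ := h'
  obtain ⟨C', h1, h2⟩ := glue (G := G × G') 16 (fun l => C l ×ˢ U (l % 4)) (fun l => l / 4)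
    (fun a b c => !(D a b c)) (by
      intro i _ j _ l _ x hx y hy z hz hs
      rw [mem_product] at hx hy hz
      obtain ⟨a1, a2⟩ := hG _ _ _ _ hx.1 _ hy.1 _ hz.1 (congrArg Prod.fst hs)
      obtain ⟨b1, b2⟩ := hG' _ _ _ _ hx.2 _ hy.2 _ hz.2 (congrArg Prod.snd hs)
      simp only [TA, b1, Bool.and_true, Bool.or_eq_true, Bool.and_eq_true, Nat.beq_eq,
        Bool.not_eq_true', Bool.or_eq_false_iff, Bool.and_eq_false_imp] at a1
      rcases a1 with ⟨rfl, rfl⟩ | ⟨c1, c2⟩
      · exact ⟨by simp [hD], fun _ _ => ⟨rfl, Prod.ext (a2 rfl rfl) (b2 rfl rfl)⟩⟩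
      · refine ⟨by simp [c2], fun e1 e2 => ?_⟩
        have := c1 e1
        rw [e2, Nat.beq_refl] at this
        exact absurd this (by simp))
  refine ⟨G × G', inferInstance, inferInstance, inferInstance, ?_, C', fun a => ?_, h2⟩
  · rw [Module.finrank_prod, hd, hd']
  · refine le_trans (sum_le_sum fun i _ => ?_) (h1 a)
    split_ifs
    · rw [card_product]
      exact Nat.mul_le_mul (hC _) (hU _)
    · exact le_rfl

theorem str_start (D : ℕ → ℕ → ℕ → Bool) (hD : ∀ a, D a a a = false) :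
    Str 0 (fun a b c => !(D a b c)) (fun s => if s = 0 then 1 else 0) := by
  refine ⟨PUnit, inferInstance, inferInstance, inferInstance, Module.finrank_zero_of_subsingleton,
    fun a => if a = 0 then {0} else ∅, fun a => ?_, ?_⟩
  · beta_reduce
    split_ifs <;> simp
  · intro a b c x hx y hy z hz _
    beta_reduce at hx hy hz
    split_ifs at hx hy hz <;> simp only [mem_singleton, notMem_empty] at hx hy hz
    subst_vars
    simp [hD]

/- from a family to a blocking set -/
theorem blocking {d : ℕ} {T : ℕ → ℕ → ℕ → Bool} {u : ℕ → ℕ} (h : Str d T u) (k : ℕ) (hk : d ≤ k) :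
    ∃ B : Finset (Fin k → ZMod 3),
      (∀ a b : Fin k → ZMod 3, b ≠ 0 → ∃ t : ZMod 3, a + t • b ∈ B) ∧ B.card + u 0 ≤ 3 ^ k := by
  classical
  obtain ⟨G, i1, i2, i3, hd, C, hC, hG⟩ := h
  have hle : Module.finrank (ZMod 3) G ≤ Module.finrank (ZMod 3) (Fin k → ZMod 3) := by
    rw [Module.finrank_fin_fun, hd]; exact hk
  obtain ⟨f, hf⟩ := finrank_le_iff_exists_linearMap.mp hle
  refine ⟨univ \ (C 0).image f, fun a b hb => ?_, ?_⟩
  · by_contra hn
    push Not at hn
    simp only [mem_sdiff, mem_univ, true_and, not_not, mem_image] at hn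
    obtain ⟨x, hx, ex⟩ := hn 0
    obtain ⟨y, hy, ey⟩ := hn 1
    obtain ⟨z, hz, ez⟩ := hn (1 + 1)
    have hs : x + y + z = 0 := by
      apply hf
      rw [map_add, map_add, ex, ey, ez, map_zero, zero_smul, one_smul, add_smul, one_smul]
      have := three_zero a
      have := three_zero b
      calc a + 0 + (a + b) + (a + (b + b)) = (a + a + a) + (b + b + b) := by abel
        _ = 0 := by rw [three_zero a, three_zero b, add_zero]
    have := (hG 0 0 0 x hx y hy z hz hs).2 rfl rfl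
    rw [this, ey, zero_smul, one_smul, add_zero] at ex
    exact hb (by simpa using ex)
  · have h1 : ((C 0).image f).card = (C 0).card := card_image_of_injective _ hf
    have h2 : (univ \ (C 0).image f).card + ((C 0).image f).card
        = (univ : Finset (Fin k → ZMod 3)).card := card_sdiff_add_card_eq_card (subset_univ _)
    have h3 : (univ : Finset (Fin k → ZMod 3)).card = 3 ^ k := by simp
    have := hC 0
    omega

end Pool.Agent.P.MP_636dfe_co.Cap
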