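import Pool.Agent.P.MP_636dfe_co.Cap.Base

set_option autoImplicit false

namespace Pool.Agent.P.MP_636dfe_co.Cap

open Finset

/- a bit-mask checker for the hypothesis of `comp` -/

def allB (N : ℕ) (f : ℕ → Bool) : Bool := Nat.rec true (fun i acc => f i && acc) N

theorem allB_spec {N : ℕ} {f : ℕ → Bool} (h : allB N f = true) : ∀ i < N, f i = true := by
  induction N with
  | zero => intro i hi; omega
  | succ n ih =>
    have h' : (f n && allB n f) = true := h
    rw [Bool.and_eq_true] at h'
    intro i hi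
    rcases Nat.lt_succ_iff_lt_or_eq.mp hi with h1 | rfl
    · exact ih h'.2 i h1
    · exact h'.1

def dig (D b r i p : ℕ) : ℕ :=
  Nat.mod (Nat.shiftRight D (Nat.mul b (Nat.add (Nat.mul i r) p))) (Nat.pow 2 b)

theorem dig_lt (D b r i p : ℕ) : dig D b r i p < Nat.pow 2 b :=
  Nat.mod_lt _ (Nat.two_pow_pos b)

def row (M N s p a c : ℕ) : ℕ :=
  Nat.shiftRight M (Nat.mul N (Nat.add (Nat.mul (Nat.add (Nat.mul p s) a) s) c))

def msk (M D b r N i j q : ℕ) : ℕ :=
  Nat.rec (Nat.pred (Nat.pow 2 N))
    (fun p acc => Nat.land acc (row M N (Nat.pow 2 b) p (dig D b r i p) (dig D b r j p))) q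

theorem msk_bit (M D b r N i j l : ℕ) (hl : l < N) (q : ℕ)
    (h : ∀ p < q, Nat.testBit (row M N (Nat.pow 2 b) p (dig D b r i p) (dig D b r j p)) l = true) :
    Nat.testBit (msk M D b r N i j q) l = true := by
  induction q with
  | zero =>
    show Nat.testBit (2 ^ N - 1) l = true
    rw [Nat.testBit_two_pow_sub_one]
    exact decide_eq_true hl
  | succ n ih =>
    show Nat.testBit (msk M D b r N i j n &&&
      row M N (Nat.pow 2 b) n (dig D b r i n) (dig D b r j n)) l = true
    rw [Nat.testBit_and, ih fun p hp => h p (by omega), h n (by omega)]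
    rfl

def chkRow (M D b k N i : ℕ) : Bool :=
  allB N fun j =>
    Nat.beq (msk M D b (Nat.succ k) N i j (Nat.succ k)) (cond (Nat.beq i j) (Nat.pow 2 i) 0)

def chkM (T T' : ℕ → ℕ → ℕ → Bool) (M D b k N : ℕ) : Bool :=
  allB (Nat.pow 2 b) fun a => allB (Nat.pow 2 b) fun c => allB N fun l =>
    (allB k fun p => !(T a c (dig D b (Nat.succ k) l p)) ||
      Nat.testBit (row M N (Nat.pow 2 b) p a c) l) &&
    ((T' a c (dig D b (Nat.succ k) l k) &&
      !(Nat.beq a c && Nat.beq c (dig D b (Nat.succ k) l k))) ||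
      Nat.testBit (row M N (Nat.pow 2 b) k a c) l)

def chkD (T' : ℕ → ℕ → ℕ → Bool) (D b k N : ℕ) : Bool :=
  allB N fun i =>
    T' (dig D b (Nat.succ k) i k) (dig D b (Nat.succ k) i k) (dig D b (Nat.succ k) i k)

def prodW (w : List ℕ) (D b r i q : ℕ) : ℕ :=
  Nat.rec 1 (fun p acc => Nat.mul acc (w.getD (dig D b r i p) 0)) q

def sumW (w : List ℕ) (D b k a n : ℕ) : ℕ :=
  Nat.rec 0 (fun i acc => Nat.add acc
    (cond (Nat.beq (dig D b (Nat.succ k) i k) a) (prodW w D b (Nat.succ k) i k) 0)) n

theorem prodW_eq (w : List ℕ) (D b r i q : ℕ) :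
    prodW w D b r i q = ∏ p ∈ range q, w.getD (dig D b r i p) 0 := by
  induction q with
  | zero => rfl
  | succ n ih => rw [prod_range_succ, ← ih]; rfl

theorem sumW_eq (w : List ℕ) (D b k a n : ℕ) :
    sumW w D b k a n = ∑ i ∈ range n, if dig D b (Nat.succ k) i k = a then
      ∏ p ∈ range k, w.getD (dig D b (Nat.succ k) i p) 0 else 0 := by
  induction n with
  | zero => rfl
  | succ n ih =>
    rw [sum_range_succ, ← ih, ← prodW_eq]
    show sumW w D b k a n + cond (Nat.beq (dig D b (Nat.succ k) n k) a)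
      (prodW w D b (Nat.succ k) n k) 0 = _
    by_cases h : dig D b (Nat.succ k) n k = a
    · rw [if_pos h, Nat.beq_eq.mpr h]; rfl
    · rw [if_neg h, Bool.eq_false_iff.mpr fun h' => h (Nat.beq_eq.mp h')]; rfl

def chkW (w w' : List ℕ) (D b k N : ℕ) : Bool :=
  allB w'.length fun a => Nat.ble (w'.getD a 0) (sumW w D b k a N)

theorem comp_chk {d : ℕ} {T : ℕ → ℕ → ℕ → Bool} {w : List ℕ} (h : Str d T fun a => w.getD a 0)
    (T' : ℕ → ℕ → ℕ → Bool) (w' : List ℕ) (M D b k N : ℕ)
    (h1 : ∀ i < N, chkRow M D b k N i = true) (h2 : chkM T T' M D b k N = true)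
    (h3 : chkD T' D b k N = true) (h4 : chkW w w' D b k N = true) :
    Str (k * d) T' fun a => w'.getD a 0 := by
  refine (comp h k N (fun i p => dig D b (Nat.succ k) i p) (fun i => dig D b (Nat.succ k) i k) T'
    ?_).mono fun a => ?_
  · intro i hi j hj l hl hT
    have hm := fun a ha c hc => Bool.and_eq_true_iff.mp
      (allB_spec (allB_spec (allB_spec h2 a ha) c hc) l hl)
    have key : ¬ (T' (dig D b (Nat.succ k) i k) (dig D b (Nat.succ k) j k)
        (dig D b (Nat.succ k) l k) &&
        !(Nat.beq (dig D b (Nat.succ k) i k) (dig D b (Nat.succ k) j k) &&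
          Nat.beq (dig D b (Nat.succ k) j k) (dig D b (Nat.succ k) l k))) = true →
        i = j ∧ j = l := by
      intro hb
      have hbit := msk_bit M D b (Nat.succ k) N i j l hl (Nat.succ k) (by
        intro p hp
        rcases Nat.lt_succ_iff_lt_or_eq.mp hp with hp | rfl
        · have := allB_spec (hm _ (dig_lt D b (Nat.succ k) i p) _ (dig_lt D b (Nat.succ k) j p)).1 p hp
          rw [hT p hp] at this
          exact this
        · have := (hm _ (dig_lt D b (Nat.succ p) i p) _ (dig_lt D b (Nat.succ p) j p)).2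
          rw [Bool.or_eq_true] at this
          exact this.resolve_left hb)
      rw [Nat.beq_eq.mp (allB_spec (h1 i hi) j hj)] at hbit
      by_cases hij : i = j
      · subst hij
        rw [Nat.beq_refl] at hbit
        exact ⟨rfl, of_decide_eq_true (Nat.testBit_two_pow.symm.trans hbit)⟩
      · rw [Bool.eq_false_iff.mpr fun h' => hij (Nat.beq_eq.mp h')] at hbit
        simp at hbit
    constructor
    · by_contra hn
      obtain ⟨rfl, rfl⟩ := key fun h' => hn (Bool.and_eq_true_iff.mp h').1
      exact hn (allB_spec h3 i hi)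
    · intro e1 e2
      apply key
      rw [e1, e2, Nat.beq_refl]
      simp
  · by_cases ha : a < w'.length
    · rw [← sumW_eq]
      exact Nat.le_of_ble_eq_true (allB_spec h4 a ha)
    · rw [List.getD_eq_default _ _ (by omega)]
      exact Nat.zero_le _

end Pool.Agent.P.MP_636dfe_co.Cap
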