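import Pool.Agent.P.MP_636dfe_co.Cap.Base

set_option autoImplicit false

namespace Pool.Agent.P.MP_636dfe_co.Cap

open Finset

def tab (s L a b c : ℕ) : Bool := Nat.testBit L (Nat.add (Nat.mul (Nat.add (Nat.mul a s) b) s) c)

def offd (s L a b c : ℕ) : Bool := tab s L a b c && !(Nat.beq a b && Nat.beq b c)

theorem offd_diag (s L a : ℕ) : offd s L a a a = false := by simp [offd]

def nxt (w u : ℕ → ℕ) (s : ℕ) : ℕ := ∑ l ∈ range 16, if l / 4 = s then w l * u (l % 4) else 0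

theorem iter {d : ℕ} {D : ℕ → ℕ → ℕ → Bool} (hD : ∀ a, D a a a = false) {w : ℕ → ℕ}
    (h : Str d (TA D) w) (P Q V : ℕ) (v : ℕ → ℕ)
    (hv : ∀ s < 4, P ^ d * v s ≤ Q ^ d * nxt w v s)
    (h0 : ∀ s < 4, v s ≤ V * nxt w (fun s => if s = 0 then 1 else 0) s) (n : ℕ) :
    ∃ u : ℕ → ℕ, Str (d * (n + 1)) (fun a b c => !(D a b c)) u ∧
      ∀ s < 4, P ^ (d * n) * v s ≤ V * Q ^ (d * n) * u s := by
  induction n with
  | zero =>
    refine ⟨nxt w fun s => if s = 0 then 1 else 0, ?_, fun s hs => by simpa using h0 s hs⟩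
    have := aut_step hD h (str_start D hD)
    rw [Nat.zero_add, Nat.mul_one]
    exact this
  | succ n ih =>
    obtain ⟨u, hu, hb⟩ := ih
    refine ⟨nxt w u, ?_, fun s hs => ?_⟩
    · have := aut_step hD h hu
      rw [show d * (n + 1 + 1) = d + d * (n + 1) by ring]
      exact this
    · have e : P ^ (d * n) * nxt w v s ≤ V * Q ^ (d * n) * nxt w u s := by
        unfold nxt
        rw [mul_sum, mul_sum]
        refine sum_le_sum fun l _ => ?_
        split_ifs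
        · have := Nat.mul_le_mul_left (w l) (hb (l % 4) (Nat.mod_lt _ (by norm_num)))
          calc P ^ (d * n) * (w l * v (l % 4)) = w l * (P ^ (d * n) * v (l % 4)) := by ring
            _ ≤ w l * (V * Q ^ (d * n) * u (l % 4)) := this
            _ = V * Q ^ (d * n) * (w l * u (l % 4)) := by ring
        · simp
      calc P ^ (d * (n + 1)) * v s = P ^ (d * n) * (P ^ d * v s) := by ring
        _ ≤ P ^ (d * n) * (Q ^ d * nxt w v s) := Nat.mul_le_mul_left _ (hv s hs)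
        _ = Q ^ d * (P ^ (d * n) * nxt w v s) := by ring
        _ ≤ Q ^ d * (V * Q ^ (d * n) * nxt w u s) := Nat.mul_le_mul_left _ e
        _ = V * Q ^ (d * (n + 1)) * nxt w u s := by ring

theorem growth {d : ℕ} {D : ℕ → ℕ → ℕ → Bool} (hD : ∀ a, D a a a = false) {w : ℕ → ℕ}
    (h : Str d (TA D) w) (P Q V : ℕ) (v : ℕ → ℕ)
    (hv : ∀ s < 4, P ^ d * v s ≤ Q ^ d * nxt w v s)
    (h0 : ∀ s < 4, v s ≤ V * nxt w (fun s => if s = 0 then 1 else 0) s)
    (hv0 : 1 ≤ v 0) (hV : 1 ≤ V) (hQ : 0 < Q) (hPQ : Q ≤ P) (hd : 0 < d) :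
    ∃ c : ℝ, 0 < c ∧ ∀ k : ℕ, ∃ B : Finset (Fin k → ZMod 3),
      (∀ a b : Fin k → ZMod 3, b ≠ 0 → ∃ t : ZMod 3, a + t • b ∈ B) ∧
      (B.card : ℝ) ≤ 3 ^ k - c * ((P : ℝ) / Q) ^ k := by
  set g : ℝ := (P : ℝ) / Q with hg
  have hQ' : (0 : ℝ) < Q := by exact_mod_cast hQ
  have hV' : (1 : ℝ) ≤ V := by exact_mod_cast hV
  have hg1 : 1 ≤ g := by rw [hg, le_div_iff₀ hQ', one_mul]; exact_mod_cast hPQ
  have hg0 : 0 < g := by linarith
  refine ⟨1 / (V * g ^ (2 * d)), by positivity, fun k => ?_⟩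
  have main : ∃ (e : ℕ) (u : ℕ → ℕ), e ≤ k ∧ Str e (fun a b c => !(D a b c)) u ∧
      g ^ k ≤ V * g ^ (2 * d) * u 0 := by
    by_cases hk : k < d
    · refine ⟨0, _, Nat.zero_le _, str_start D hD, ?_⟩
      have : g ^ k ≤ g ^ (2 * d) := pow_le_pow_right₀ hg1 (by omega)
      have h2 : 0 < g ^ (2 * d) := by positivity
      simp only [if_true, Nat.cast_one, mul_one]
      nlinarith
    · obtain ⟨n, hn⟩ : ∃ n, k / d = n + 1 :=
        ⟨k / d - 1, by have := Nat.div_pos (not_lt.mp hk) hd; omega⟩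
      obtain ⟨u, hu, hb⟩ := iter hD h P Q V v hv h0 n
      have h1 : d * (n + 1) ≤ k := hn ▸ Nat.mul_div_le k d
      have h2 : k < d * (n + 1 + 1) := hn ▸ Nat.lt_mul_div_succ k hd
      refine ⟨_, u, h1, hu, ?_⟩
      have h3 : P ^ (d * n) ≤ V * Q ^ (d * n) * u 0 :=
        le_trans (Nat.le_mul_of_pos_right _ hv0) (hb 0 (by norm_num))
      have h4 : g ^ (d * n) ≤ V * u 0 := by
        rw [hg, div_pow, div_le_iff₀ (by positivity)]
        have : ((P ^ (d * n) : ℕ) : ℝ) ≤ ((V * Q ^ (d * n) * u 0 : ℕ) : ℝ) := by exact_mod_cast h3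
        push_cast at this
        linarith
      calc g ^ k ≤ g ^ (2 * d + d * n) := pow_le_pow_right₀ hg1 (by nlinarith)
        _ = g ^ (2 * d) * g ^ (d * n) := pow_add _ _ _
        _ ≤ g ^ (2 * d) * (V * u 0) := by gcongr
        _ = V * g ^ (2 * d) * u 0 := by ring
  obtain ⟨e, u, he, hu, hb⟩ := main
  obtain ⟨B, hB, hc⟩ := blocking hu k he
  refine ⟨B, hB, ?_⟩
  have h5 : (B.card : ℝ) + u 0 ≤ 3 ^ k := by exact_mod_cast hc
  have h6 : 1 / (V * g ^ (2 * d)) * g ^ k ≤ u 0 := by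
    rw [one_div, inv_mul_le_iff₀ (by positivity)]
    exact hb
  linarith

end Pool.Agent.P.MP_636dfe_co.Cap
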